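import Pool.Agent.Helper5.FS.Stmts

/-!
# The local inequality (row LOC of the sheet FS)
-/

set_option autoImplicit false

open Finset

namespace Pool.Agent.Helper31.FS

open Pool.Agent.Helper5.FS

/-- subsets of the small blocks -/
def LOC_U {n : ℕ} (s : ℕ) (R : Finset (Finset (Fin n))) : Finset (Finset (Fin n)) :=
  (univ : Finset (Finset (Fin n))).filter (fun A => ∃ D ∈ R, A ⊆ D ∧ D.card ≤ 2 * s)

open scoped Classical in
/-- pairs of small blocks inside one block of `Q` -/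
noncomputable def LOC_T {n : ℕ} (s : ℕ) (Q P : Finset (Finset (Fin n))) :
    Finset (Finset (Fin n) × Finset (Fin n)) :=
  (univ : Finset (Finset (Fin n) × Finset (Fin n))).filter
    (fun p => p.1 ∈ P ∧ p.2 ∈ P ∧ p.1 ≠ p.2 ∧ p.1.card ≤ s ∧ p.2.card ≤ s ∧
      ∃ C ∈ Q, p.1 ⊆ C ∧ p.2 ⊆ C)

theorem LOC_memT {n s : ℕ} {Q P : Finset (Finset (Fin n))} {p : Finset (Fin n) × Finset (Fin n)} :
    p ∈ LOC_T s Q P ↔ p.1 ∈ P ∧ p.2 ∈ P ∧ p.1 ≠ p.2 ∧ p.1.card ≤ s ∧ p.2.card ≤ s ∧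
      ∃ C ∈ Q, p.1 ⊆ C ∧ p.2 ⊆ C := by
  unfold LOC_T
  simp only [mem_filter, mem_univ, true_and]

open scoped Classical in
theorem st_LOC (h1 : ST_MG1) (h2 : ST_MG2) (h3 : ST_MG3) (h4 : ST_PRS) (h5 : ST_FIB) :
    ST_LOC := by
  intro n m q s Q Z hQ hq1 hq2 hn hm hZ
  obtain ⟨hA, -, -, -⟩ := h2
  have hm0 : 0 < m := by
    have : 1 ≤ q * (2 ^ (2 * s + 2) + 2) := Nat.mul_pos hq2 (by positivity)
    omega
  refine Nat.le_of_mul_le_mul_right (c := m * 2 ^ (2 * s)) ?_ (by positivity)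
  generalize hN : ((univ : Finset (Finset (Finset (Fin n)))).filter
    (fun R => Rf R Q ∧ ∃ P ∈ Z, ∃ A ∈ P, ∃ B ∈ P, A ≠ B ∧ R = mg P A B)) = N
  have hmem : ∀ R, R ∈ N ↔ (Rf R Q ∧ ∃ P ∈ Z, ∃ A ∈ P, ∃ B ∈ P, A ≠ B ∧ R = mg P A B) := by
    intro R
    rw [← hN]
    simp only [mem_filter, mem_univ, true_and]
  have hT : ∀ P ∈ Z, m * 2 ^ (2 * s) ≤ (LOC_T s Q P).card := fun P hP =>
    h4 n m q s P Q (hZ P hP).1 hQ (hZ P hP).2.1 hq1 (hZ P hP).2.2 hq2 hn hm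
  have hU : ∀ R ∈ N, (LOC_U s R).card ≤ m * 2 ^ (2 * s) := by
    intro R hR
    obtain ⟨-, P, hP, A, hA', B, hB', hAB, rfl⟩ := (hmem R).1 hR
    have h6 := (h1 n P A B (hZ P hP).1 hA' hB' hAB).2
    rw [(hZ P hP).2.1] at h6
    exact h5 n m s _ (by omega)
  have key : (Z.sigma (LOC_T s Q)).card ≤ (N.sigma (LOC_U s)).card := by
    refine card_le_card_of_injOn (fun x => ⟨mg x.1 x.2.1 x.2.2, x.2.1⟩) ?_ ?_
    · rintro ⟨P, A, B⟩ hx
      rw [mem_coe, mem_sigma] at hx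
      obtain ⟨hP, hp⟩ := hx
      obtain ⟨hA', hB', hAB, hcA, hcB, C, hC, hAC, hBC⟩ := LOC_memT.1 hp
      rw [mem_coe, mem_sigma]
      refine ⟨(hmem _).2 ⟨hA n P Q A B C (hZ P hP).2.2 hC hAC hBC, P, hP, A, hA', B, hB', hAB,
        rfl⟩, ?_⟩
      unfold LOC_U
      rw [mem_filter]
      refine ⟨mem_univ _, A ∪ B, mem_insert_self _ _, subset_union_left, ?_⟩
      have := card_union_le A B
      simp only at hcA hcB
      omega
    · rintro ⟨P, A, B⟩ hx ⟨P', A', B'⟩ hx' he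
      rw [mem_coe, mem_sigma] at hx hx'
      obtain ⟨hP, hp⟩ := hx
      obtain ⟨hP', hp'⟩ := hx'
      obtain ⟨a1, a2, a3, -, -, -⟩ := LOC_memT.1 hp
      obtain ⟨b1, b2, b3, -, -, -⟩ := LOC_memT.1 hp'
      simp only [Sigma.mk.injEq, heq_eq_eq] at he
      obtain ⟨e1, e2⟩ := he
      simp only at hP hP' a1 a2 a3 b1 b2 b3
      subst e2
      obtain ⟨e3, e4⟩ := h3 n P P' A B B' (hZ P hP).1 (hZ P' hP').1 a1 a2 a3 b1 b2 b3 e1
      subst e3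
      subst e4
      rfl
  rw [card_sigma, card_sigma] at key
  calc Z.card * (m * 2 ^ (2 * s)) = ∑ _P ∈ Z, m * 2 ^ (2 * s) := by
        rw [sum_const, smul_eq_mul]
    _ ≤ ∑ P ∈ Z, (LOC_T s Q P).card := sum_le_sum hT
    _ ≤ ∑ R ∈ N, (LOC_U s R).card := key
    _ ≤ ∑ _R ∈ N, m * 2 ^ (2 * s) := sum_le_sum hU
    _ = N.card * (m * 2 ^ (2 * s)) := by rw [sum_const, smul_eq_mul]

end Pool.Agent.Helper31.FS
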